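import Pool.Agent.R97.TriCon

/-!
# MP_6ac11b_co, Q1: the constant `C` does not exist

For every `R ≥ 1` and every `t ≥ 244800000 R^7`, no extremal graph of `G(n,t)` with `n = R(t+4)`
has a component `K_{t+1}`; even every degree is at least `t+1`.  Paper proof by helper86.
-/

set_option autoImplicit false

namespace Pool.Agent.Results.MP_6ac11b_co.NoIsolatedClique

open Pool.Agent.R97.Tri

/-- Q1 is false, with an explicit family of counterexamples. -/
theorem result :
    (∀ R t : ℕ, 1 ≤ R → 244800000 * R ^ 7 ≤ t → ∀ G : SimpleGraph (Fin (R * (t + 4))),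
      Extremal t G → ¬ IsolatedClique (t + 1) G ∧ ∀ v, t + 1 ≤ (G.neighborSet v).ncard) ∧
    ¬ ∃ C : ℝ, ∀ t n : ℕ, 2 ≤ t → t + 1 ≤ n → C * t ≤ n → ∀ G : SimpleGraph (Fin n),
      Extremal t G → IsolatedClique (t + 1) G := by
  classical
  have main : ∀ R t : ℕ, 1 ≤ R → 244800000 * R ^ 7 ≤ t → ∀ G : SimpleGraph (Fin (R * (t + 4))),
      Extremal t G → ¬ IsolatedClique (t + 1) G ∧ ∀ v, t + 1 ≤ (G.neighborSet v).ncard := by
    intro R t hR ht G hG
    have hd : ∀ v, t + 1 ≤ G.degree v :=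
      fun v => extremal_deg hR ht (Fintype.card_fin _) hG v
    refine ⟨no_isolated hd, fun v => ?_⟩
    rw [← Nat.card_coe_set_eq, Nat.card_eq_fintype_card, SimpleGraph.card_neighborSet_eq_degree]
    exact hd v
  refine ⟨main, ?_⟩
  rintro ⟨C, hC⟩
  obtain ⟨R, hR⟩ := exists_nat_ge (max C 1)
  have hR1 : 1 ≤ R := by exact_mod_cast (le_max_right C 1).trans hR
  have hRC : C ≤ R := (le_max_left C 1).trans hR
  set t : ℕ := 244800000 * R ^ 7 with ht
  have hR7 : 1 ≤ R ^ 7 := Nat.one_le_pow _ _ hR1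
  have ht2 : 2 ≤ t := by omega
  have hn1 : t + 1 ≤ R * (t + 4) := by nlinarith
  have hn2 : C * t ≤ ((R * (t + 4) : ℕ) : ℝ) := by
    push_cast
    have h1 : C * t ≤ R * t := mul_le_mul_of_nonneg_right hRC (by positivity)
    have h2 : (0 : ℝ) ≤ R := by positivity
    nlinarith
  -- an extremal graph exists
  have hex : ∃ k : ℕ, ∃ G : SimpleGraph (Fin (R * (t + 4))), InG t G ∧ G.edgeSet.ncard = k := by
    have hcard : Fintype.card (Fin (R * (t + 4))) = Fintype.card (Fin R × ZMod (t + 4)) := by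
      rw [Fintype.card_fin, Fintype.card_prod, Fintype.card_fin, ZMod.card]
    obtain ⟨e⟩ : Nonempty (Fin (R * (t + 4)) ≃ Fin R × ZMod (t + 4)) :=
      ⟨Fintype.equivOfCardEq hcard⟩
    exact ⟨_, G0 e, G0_inG e (by omega) rfl, rfl⟩
  obtain ⟨G, hG, hGk⟩ := Nat.find_spec hex
  have hext : Extremal t G := by
    refine ⟨hG, fun H hH => ?_⟩
    rw [hGk]
    exact Nat.find_min' hex ⟨H, hH, rfl⟩
  exact (main R t hR1 le_rfl G hext).1 (hC t _ ht2 hn1 hn2 G hext)

end Pool.Agent.Results.MP_6ac11b_co.NoIsolatedClique
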